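import Pool.Agent.Lib.MP_275d83_lc.Mach
import Pool.Agent.Lib.MP_275d83_lc.Growth

/-! A register system one of whose registers follows a slow primitive recursive function. -/

namespace Pool.Agent.FS.SlowIndex

open Pool.Agent.Lib.MP_275d83_lc Pool.Agent.Lib.MP_1ebeae_al Function Filter

/-- The run of the register system, read at the register that holds the last computed value. -/
theorem exists_runP (p : ℕ → ℕ) (hp : Primrec p) :
    ∃ (ι : Type) (_ : Finite ι) (x : ℕ → ι → ℕ) (i₀ i₁ : ι) (T : ℕ → ℕ),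
      Aff x ∧ (∀ t i, x t i ≤ 2 ^ t) ∧ (∀ t, x t i₀ = 2 ^ t) ∧ (∀ s, T s < T (s + 1)) ∧
      (∀ t, t < T 1 → x t i₁ = 0) ∧
      ∀ s t, T (s + 1) ≤ t → t < T (s + 2) → x t i₁ = p (T s) := by
  classical
  obtain ⟨G, hG⟩ := exists_prog4 (fun _ b => p b) (fun _ _ => 0) (fun _ _ => 0) (fun _ _ => 0)
    (hp.comp Primrec.snd) (Primrec.const 0) (Primrec.const 0) (Primrec.const 0)
  have hH : ∀ b, ∃ H, (∃ σ', (cmach G).step^[H] ([G], initReg 0 b) = ([], σ') ∧
      σ' 2 = p b ∧ σ' 4 = 0) ∧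
      ∀ r < H, ((cmach G).step^[r] ([G], initReg 0 b)).1 ≠ [] := by
    intro b
    obtain ⟨σ', h0, h2, -, h4, -⟩ := hG 0 b
    obtain ⟨H, h6, h7⟩ := exists_halt G h0
    exact ⟨H, ⟨σ', h6, h2, h4⟩, h7⟩
  choose H hH1 hH3 using hH
  let T : ℕ → ℕ := fun s => Nat.rec 0 (fun _ y => y + H y + 1) s
  have hT : ∀ s, T (s + 1) = T s + H (T s) + 1 := fun _ => rfl
  have hT0 : T 0 = 0 := rfl
  have next : ∀ s, (st G (T s)).c = [G] → (st G (T s)).σ = initReg 0 (T s) →
      (st G (T s)).u = 0 → (st G (T s)).v = 0 →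
      (st G (T (s + 1))).c = [G] ∧ (st G (T (s + 1))).σ = initReg 0 (T (s + 1)) ∧
        (st G (T (s + 1))).u = 0 ∧ (st G (T (s + 1))).v = 0 ∧
        (st G (T (s + 1))).P = p (T s) := by
    intro s h1 h2 h3 h4
    obtain ⟨σ', h5, h6, h8⟩ := hH1 (T s)
    have h9 := (st_phase G (T s) _ _ _ _ h1 h2 rfl rfl h3 h4 (hH3 (T s)) _ le_rfl).1
    rw [h5, Prod.mk.injEq] at h9
    rw [hT, st_nil G _ h9.1, h9.2, h6, h8]
    exact ⟨rfl, rfl, rfl, rfl, rfl⟩
  have start : ∀ s, (st G (T s)).c = [G] ∧ (st G (T s)).σ = initReg 0 (T s) ∧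
      (st G (T s)).u = 0 ∧ (st G (T s)).v = 0 := by
    intro s
    induction s with
    | zero => exact ⟨rfl, rfl, rfl, rfl⟩
    | succ s ih =>
      obtain ⟨h1, h2, h3, h4, -⟩ := next s ih.1 ih.2.1 ih.2.2.1 ih.2.2.2
      exact ⟨h1, h2, h3, h4⟩
  let S : Finset (List Prog) := ([] :: conts G []).toFinset
  let B : ℕ := S.sup creg + 6
  refine ⟨S ⊕ Fin B ⊕ Fin 7, inferInstance, regs G S B, .inr (.inr 0), .inr (.inr 3),
    T, ?_, regs_le G S B, fun _ => rfl, ?_, ?_, ?_⟩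
  · refine regs_aff G S B (fun t => List.mem_toFinset.2 (st_mem G t)) (by omega) fun c hc => ?_
    have := Finset.le_sup (f := creg) hc
    omega
  · intro s
    rw [hT]
    omega
  · intro t ht
    obtain ⟨a1, a2, a3, a4⟩ := start 0
    have ht' : t < T 0 + H (T 0) + 1 := ht
    obtain ⟨-, c1, -⟩ := st_phase G (T 0) _ 0 0 _ a1 a2 rfl rfl a3 a4 (hH3 (T 0)) t (by omega)
    rw [hT0, Nat.zero_add] at c1
    exact c1
  · intro s t h1 h2
    obtain ⟨a1, a2, a3, a4⟩ := start s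
    obtain ⟨b1, b2, b3, b4, b5⟩ := next s a1 a2 a3 a4
    rw [hT (s + 1)] at h2
    obtain ⟨-, c1, -⟩ := st_phase G (T (s + 1)) _ _ _ _ b1 b2 b5 rfl b3 b4
      (hH3 (T (s + 1))) (t - T (s + 1)) (by omega)
    rw [show T (s + 1) + (t - T (s + 1)) = t by omega] at c1
    exact c1

/-- Every time after the first phase lies in a phase. -/
theorem exists_phase {T : ℕ → ℕ} (hT : ∀ s, T s < T (s + 1)) {s₀ t : ℕ} (h : T (s₀ + 1) ≤ t) :
    ∃ s, s₀ ≤ s ∧ T (s + 1) ≤ t ∧ t < T (s + 2) := by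
  have hm : StrictMono T := strictMono_nat_of_lt_succ hT
  have key : ∀ d s₀, T (s₀ + 1) ≤ t → t ≤ T (s₀ + 1) + d →
      ∃ s, s₀ ≤ s ∧ T (s + 1) ≤ t ∧ t < T (s + 2) := by
    intro d
    induction d with
    | zero =>
      intro s₀ h1 h2
      exact ⟨s₀, le_rfl, h1, lt_of_le_of_lt h2 (hT (s₀ + 1))⟩
    | succ d ih =>
      intro s₀ h1 h2
      by_cases h3 : t < T (s₀ + 2)
      · exact ⟨s₀, le_rfl, h1, h3⟩
      · have h4 := hT (s₀ + 1)
        obtain ⟨s, e1, e2⟩ := ih (s₀ + 1) (not_lt.1 h3) (by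
          have : T (s₀ + 1 + 1) = T (s₀ + 2) := rfl
          omega)
        exact ⟨s, by omega, e2⟩
  exact key t s₀ h (by omega)

/-- A register that stays below a slow monotone function and tends to infinity. -/
theorem exists_reg (p : ℕ → ℕ) (hp : Primrec p) (hm : Monotone p) (hu : ∀ K, ∃ t, K ≤ p t) :
    ∃ (ι : Type) (_ : Finite ι) (x : ℕ → ι → ℕ) (i₀ i₁ : ι),
      Aff x ∧ (∀ t i, x t i ≤ 2 ^ t) ∧ (∀ t, x t i₀ = 2 ^ t) ∧ (∀ t, x t i₁ ≤ p t) ∧
      ∀ K, ∃ t₀, ∀ t, t₀ ≤ t → K ≤ x t i₁ := by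
  obtain ⟨ι, hι, x, i₀, i₁, T, hA, hb, h₀, hT, h1, h2⟩ := exists_runP p hp
  have hs : StrictMono T := strictMono_nat_of_lt_succ hT
  refine ⟨ι, hι, x, i₀, i₁, hA, hb, h₀, fun t => ?_, fun K => ?_⟩
  · rcases Nat.lt_or_ge t (T 1) with h | h
    · rw [h1 t h]
      exact Nat.zero_le _
    · obtain ⟨s, -, e1, e2⟩ := exists_phase hT (s₀ := 0) h
      rw [h2 s t e1 e2]
      exact hm ((hT s).le.trans e1)
  · obtain ⟨s₀, hs₀⟩ := hu K
    refine ⟨T (s₀ + 1), fun t ht => ?_⟩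
    obtain ⟨s, e0, e1, e2⟩ := exists_phase hT ht
    rw [h2 s t e1 e2]
    exact hs₀.trans (hm (e0.trans hs.le_apply))

/-- A computable monotone unbounded function has a primitive recursive minorant of the same kind. -/
theorem exists_minorant (h : ℕ → ℕ) (hc : Computable h) (hm : Monotone h)
    (hu : ∀ K, ∃ t, K ≤ h t) :
    ∃ q : ℕ → ℕ, Primrec q ∧ Monotone q ∧ (∀ K, ∃ t, K ≤ q t) ∧ ∀ t, q t ≤ h t := by
  obtain ⟨c, hc'⟩ := Nat.Partrec.Code.exists_code.1 (Partrec.nat_iff.1 hc)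
  have hev : ∀ a, h a ∈ c.eval a := fun a => by
    rw [hc']
    simp
  let e : ℕ → ℕ := fun t => (Nat.Partrec.Code.evaln t.unpair.1 c t.unpair.2).getD 0
  have he : Primrec e :=
    Primrec.option_getD.comp (Nat.Partrec.Code.primrec_evaln.comp
      (((Primrec.fst.comp Primrec.unpair).pair (Primrec.const c)).pair
        (Primrec.snd.comp Primrec.unpair))) (Primrec.const 0)
  have hle : ∀ t, e t ≤ h t := by
    intro t
    simp only [e]
    cases h1 : Nat.Partrec.Code.evaln t.unpair.1 c t.unpair.2 with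
    | none => exact Nat.zero_le _
    | some y =>
      have h2 := Part.mem_unique (Nat.Partrec.Code.evaln_sound h1) (hev _)
      rw [Option.getD_some, h2]
      exact hm (Nat.unpair_right_le t)
  let q : ℕ → ℕ := fun t => Nat.rec 0 (fun s y => max y (e s)) t
  have hq : ∀ t, q (t + 1) = max (q t) (e t) := fun _ => rfl
  refine ⟨q, ?_, monotone_nat_of_le_succ fun t => by rw [hq]; exact le_max_left _ _,
    fun K => ?_, fun t => ?_⟩
  · exact Primrec.nat_rec₁ 0 (Primrec.nat_max.comp Primrec.snd (he.comp Primrec.fst))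
  · obtain ⟨a, ha⟩ := hu K
    obtain ⟨k, hk⟩ := Nat.Partrec.Code.evaln_complete.1 (hev a)
    refine ⟨Nat.pair k a + 1, ?_⟩
    rw [hq]
    refine le_trans ?_ (le_max_right _ _)
    have h1 : Nat.Partrec.Code.evaln k c a = some (h a) := hk
    simp only [e, Nat.unpair_pair, h1, Option.getD_some]
    exact ha
  · induction t with
    | zero => exact Nat.zero_le _
    | succ t ih =>
      rw [hq]
      have h1 := hm (Nat.le_succ t)
      exact max_le (ih.trans h1) ((hle t).trans h1)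

/-- A lower bound by sums of a sequence that tends to infinity is superpolynomial. -/
theorem superpoly' {f y : ℕ → ℕ} {c : ℕ} (hy : ∀ K, ∃ t₀, ∀ t, t₀ ≤ t → K ≤ y t)
    (lo : ∀ t n, c * 2 ^ t ≤ n → 2 ^ (∑ j ∈ Finset.range t, y j) ≤ f n) (k : ℕ) :
    ¬ Asymptotics.IsBigO atTop (fun n : ℕ => (f n : ℝ)) fun n : ℕ => (n : ℝ) ^ k := by
  intro h
  obtain ⟨A, hA⟩ := h.bound
  obtain ⟨N, hN⟩ := eventually_atTop.1 hA
  obtain ⟨t, ht⟩ := hy (k + 1)
  have hsum : ∀ u, u * (k + 1) ≤ ∑ j ∈ Finset.range (t + u), y j := by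
    intro u
    induction u with
    | zero => simp
    | succ u ih =>
      have h1 := ht (t + u) (Nat.le_add_right _ _)
      rw [← add_assoc, Finset.sum_range_succ, Nat.succ_mul]
      omega
  obtain ⟨B, hB⟩ := exists_nat_ge A
  obtain ⟨u, hu⟩ : ∃ u, u = N + B * 2 ^ ((c + t) * k) := ⟨_, rfl⟩
  have h1 : N ≤ 2 ^ (c + (t + u)) := by
    have : c + (t + u) < 2 ^ (c + (t + u)) := Nat.lt_two_pow_self
    omega
  have h2 := hN _ h1
  rw [Real.norm_natCast, Real.norm_of_nonneg (by positivity)] at h2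
  have h3 : f (2 ^ (c + (t + u))) ≤ B * (2 ^ (c + (t + u))) ^ k := by
    have := h2.trans (mul_le_mul_of_nonneg_right hB (by positivity))
    exact_mod_cast this
  have h4 := (Nat.pow_le_pow_right two_pos (hsum u)).trans
    ((lo (t + u) _ (GrowthAux.mul_pow_le c (t + u))).trans h3)
  have e1 : 2 ^ (u * (k + 1)) = 2 ^ u * 2 ^ (u * k) := by ring
  have e2 : B * (2 ^ (c + (t + u))) ^ k = B * 2 ^ ((c + t) * k) * 2 ^ (u * k) := by ring
  rw [e1, e2] at h4
  have h5 := Nat.le_of_mul_le_mul_right h4 (Nat.two_pow_pos _)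
  have h6 : u < 2 ^ u := Nat.lt_two_pow_self
  omega

/-- The final estimate. -/
theorem final_le {c n t q H M : ℕ} (hn : 2 ≤ n) (hc : 2 * c ≤ n) (ht : 2 ^ t ≤ 2 * n)
    (hH : 8 ≤ H) (hq : 4 * q ≤ H) (hM : M ≤ t * q) :
    c * (n + 1) ^ 2 + c * 2 ^ M ≤ n ^ H := by
  obtain ⟨r, rfl⟩ : ∃ r, H = r + 4 := ⟨H - 4, by omega⟩
  have hn0 : 0 < n := by omega
  have h1 : (n + 1) ^ 2 ≤ n ^ r := by
    have h2 : n + 1 ≤ n ^ 2 := by nlinarith
    calc (n + 1) ^ 2 ≤ (n ^ 2) ^ 2 := Nat.pow_le_pow_left h2 2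
      _ = n ^ 4 := by ring
      _ ≤ n ^ r := Nat.pow_le_pow_right hn0 (by omega)
  have h3 : 2 ^ M ≤ n ^ r := by
    have h4 : 2 * n ≤ n ^ 2 := by nlinarith
    calc 2 ^ M ≤ 2 ^ (t * q) := Nat.pow_le_pow_right two_pos hM
      _ = (2 ^ t) ^ q := by rw [pow_mul]
      _ ≤ (n ^ 2) ^ q := Nat.pow_le_pow_left (ht.trans h4) q
      _ = n ^ (2 * q) := by rw [pow_mul]
      _ ≤ n ^ r := Nat.pow_le_pow_right hn0 (by omega)
  calc c * (n + 1) ^ 2 + c * 2 ^ M ≤ c * n ^ r + c * n ^ r :=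
        Nat.add_le_add (Nat.mul_le_mul_left _ h1) (Nat.mul_le_mul_left _ h3)
    _ = 2 * c * n ^ r := by ring
    _ ≤ n * n ^ r := Nat.mul_le_mul_right _ hc
    _ = n ^ (r + 1) := by ring
    _ ≤ n ^ (r + 4) := Nat.pow_le_pow_right hn0 (by omega)

/-- Arguments at which a superpolynomial computable function is large can be computed. -/
theorem exists_gap (f : ℕ → ℕ) (hf : Computable f)
    (hs : ∀ k : ℕ, ¬ Asymptotics.IsBigO atTop (fun n : ℕ => (f n : ℝ)) fun n : ℕ => (n : ℝ) ^ k) :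
    ∃ N : ℕ → ℕ, Computable N ∧ ∀ k, 0 < N k ∧ (k * N k + 1) * ((k * N k) ^ k + 1) < f (N k) := by
  have hex : ∀ k : ℕ, ∃ n, (k * (n + 1) + 1) * ((k * (n + 1)) ^ k + 1) < f (n + 1) := by
    intro k
    by_contra hno
    push Not at hno
    refine hs (k + 1) (Asymptotics.IsBigO.of_bound (((k + 1) * (k ^ k + 1) : ℕ) : ℝ) ?_)
    filter_upwards [eventually_ge_atTop 1] with n hn
    obtain ⟨n, rfl⟩ : ∃ r, n = r + 1 := ⟨n - 1, by omega⟩
    rw [Real.norm_natCast, Real.norm_of_nonneg (by positivity)]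
    have h1 : k * (n + 1) + 1 ≤ (k + 1) * (n + 1) := by nlinarith
    have h2 : (k * (n + 1)) ^ k + 1 ≤ (k ^ k + 1) * (n + 1) ^ k := by
      have : 1 ≤ (n + 1) ^ k := Nat.one_le_pow _ _ (by omega)
      rw [mul_pow, add_mul, one_mul]
      omega
    have h3 : f (n + 1) ≤ (k + 1) * (k ^ k + 1) * (n + 1) ^ (k + 1) :=
      calc f (n + 1) ≤ _ := hno n
        _ ≤ (k + 1) * (n + 1) * ((k ^ k + 1) * (n + 1) ^ k) := Nat.mul_le_mul h1 h2
        _ = _ := by ring
    exact_mod_cast h3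
  have hpow : Primrec₂ fun a b : ℕ => a ^ b := Primrec₂.unpaired'.1 Nat.Primrec.pow
  have hn : Primrec fun p : ℕ × ℕ => p.1 * (p.2 + 1) :=
    Primrec.nat_mul.comp Primrec.fst (Primrec.succ.comp Primrec.snd)
  have hg : Computable fun p : ℕ × ℕ => (p.1 * (p.2 + 1) + 1) * ((p.1 * (p.2 + 1)) ^ p.1 + 1) :=
    (Primrec.nat_mul.comp (Primrec.succ.comp hn)
      (Primrec.succ.comp (hpow.comp hn Primrec.fst))).to_comp
  have hr : Computable fun p : ℕ × ℕ => f (p.2 + 1) :=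
    hf.comp (Primrec.succ.comp Primrec.snd).to_comp
  have hlt : Computable₂ fun a b : ℕ => decide (a < b) := Primrec.nat_lt.decide.to_comp
  have hP : ComputablePred fun p : ℕ × ℕ =>
      (p.1 * (p.2 + 1) + 1) * ((p.1 * (p.2 + 1)) ^ p.1 + 1) < f (p.2 + 1) :=
    Computable.computablePred (hlt.comp hg hr)
  exact ⟨fun k => Nat.find (hex k) + 1, Computable.succ.comp (Computable.find hP hex),
    fun k => ⟨Nat.succ_pos _, Nat.find_spec (hex k)⟩⟩

/-- A computable inverse of a computable function that dominates the identity. -/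
theorem exists_inverse (g : ℕ → ℕ) (hg : Computable g) (hle : ∀ k, k ≤ g k) :
    ∃ h : ℕ → ℕ, Computable h ∧ Monotone h ∧ (∀ K, ∃ n, K ≤ h n) ∧ (∀ k, h (g k) ≤ k) ∧
      ∀ n k, k < h n → g k < n := by
  have hex : ∀ n : ℕ, ∃ k, n ≤ g k := fun n => ⟨n, hle n⟩
  have hl : Computable₂ fun a b : ℕ => decide (a ≤ b) := Primrec.nat_le.decide.to_comp
  have hP : ComputablePred fun p : ℕ × ℕ => p.1 ≤ g p.2 :=
    Computable.computablePred (hl.comp Computable.fst (hg.comp Computable.snd))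
  refine ⟨fun n => Nat.find (hex n), Computable.find hP hex, fun a b hab => ?_, fun K => ?_,
    fun k => Nat.find_min' (hex _) le_rfl, fun n k hk => not_le.1 (Nat.find_min (hex n) hk)⟩
  · exact Nat.find_min' (hex a) (hab.trans (Nat.find_spec (hex b)))
  · refine ⟨(Finset.range K).sup g + 1, ?_⟩
    by_contra h1
    have h2 := Nat.find_spec (hex ((Finset.range K).sup g + 1))
    have h3 := Finset.le_sup (f := g) (Finset.mem_range.2 (not_le.1 h1))
    exact absurd (h2.trans h3) (Nat.not_succ_le_self _)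

/-- A monotone exponent that bounds a superpolynomial computable function has a computable
monotone unbounded minorant. -/
theorem exists_order (f h : ℕ → ℕ) (hf : Computable f) (hm : Monotone h)
    (hs : ∀ k : ℕ, ¬ Asymptotics.IsBigO atTop (fun n : ℕ => (f n : ℝ)) fun n : ℕ => (n : ℝ) ^ k)
    (hev : ∀ᶠ n : ℕ in atTop, f n ≤ n ^ h n) :
    ∃ g : ℕ → ℕ, Computable g ∧ Monotone g ∧ (∀ K, ∃ n, K ≤ g n) ∧ ∀ n, g n ≤ h n := by
  obtain ⟨n₀, hn₀⟩ := eventually_atTop.1 hev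
  obtain ⟨N, hN, hNs⟩ := exists_gap f hf hs
  obtain ⟨C, hC⟩ : ∃ C, C = (Finset.range n₀).sup f + 1 := ⟨_, rfl⟩
  have key : ∀ k, k < h (N (k + C)) := by
    intro k
    obtain ⟨e1, e2⟩ := hNs (k + C)
    generalize N (k + C) = n at e1 e2
    have e3 : k + C ≤ (k + C) * n := Nat.le_mul_of_pos_right _ e1
    have e4 : n ≤ (k + C) * n := Nat.le_mul_of_pos_left _ (by omega)
    have e5 : (k + C) * n + 1 ≤ ((k + C) * n + 1) * (((k + C) * n) ^ (k + C) + 1) :=
      Nat.le_mul_of_pos_right _ (Nat.succ_pos _)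
    have e6 : ((k + C) * n) ^ (k + C) + 1 ≤ ((k + C) * n + 1) * (((k + C) * n) ^ (k + C) + 1) :=
      Nat.le_mul_of_pos_left _ (Nat.succ_pos _)
    have e7 : n₀ ≤ n := by
      by_contra e8
      have := Finset.le_sup (f := f) (Finset.mem_range.2 (not_le.1 e8))
      omega
    have e8 := hn₀ n e7
    have e9 : n ^ (k + C) ≤ ((k + C) * n) ^ (k + C) := Nat.pow_le_pow_left e4 _
    by_contra e10
    have e11 : n ^ h n ≤ n ^ (k + C) := Nat.pow_le_pow_right e1 (by omega)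
    omega
  obtain ⟨g, hg, hgm, hgu, -, hlt⟩ := exists_inverse (fun k => N (k + C) + k)
    (Primrec.nat_add.to_comp.comp
      (hN.comp (Primrec.nat_add.comp Primrec.id (Primrec.const C)).to_comp) Computable.id)
    fun k => Nat.le_add_left _ _
  refine ⟨g, hg, hgm, hgu, fun n => ?_⟩
  by_contra h1
  have h2 : N (h n + C) + h n < n := hlt n (h n) (not_le.1 h1)
  have h3 := key (h n)
  have h4 := hm (show N (h n + C) ≤ n by omega)
  omega

end Pool.Agent.FS.SlowIndex
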