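import Pool.Agent.Lib.MP_275d83_lc.Hist
import Pool.Agent.FS.SlowIndex.Run

/-! Context-free languages whose rational index is barely superpolynomial. -/

namespace Pool.Agent.FS.SlowIndex

open Filter Pool.Agent.Lib.MP_275d83_lc

/-- Intermediate rational indices of context-free languages come arbitrarily close to the
polynomials: below `n ^ h n` for every computable monotone unbounded `h`. -/
theorem exists_slow (h : ℕ → ℕ) (hc : Computable h) (hm : Monotone h) (hu : ∀ K, ∃ n, K ≤ h n) :
    ∃ (X : Type) (_ : Fintype X) (L : Language X), L.IsContextFree ∧ Intermediate (index L) ∧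
      ∀ᶠ n : ℕ in atTop, index L n ≤ n ^ h n := by
  obtain ⟨q, hq, hqm, hqu, hqh⟩ := exists_minorant h hc hm hu
  have hp : Primrec fun t => min (q t / 4) (t / 2) :=
    Primrec.nat_min.comp (Primrec.nat_div.comp hq (Primrec.const 4))
      (Primrec.nat_div.comp Primrec.id (Primrec.const 2))
  have hpm : Monotone fun t => min (q t / 4) (t / 2) := fun a b hab =>
    min_le_min (Nat.div_le_div_right (hqm hab)) (Nat.div_le_div_right hab)
  have hpu : ∀ K, ∃ t, K ≤ min (q t / 4) (t / 2) := by
    intro K
    obtain ⟨t, ht⟩ := hqu (4 * K)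
    have h1 := hqm (Nat.le_add_right t (2 * K))
    exact ⟨t + 2 * K, le_min (by omega) (by omega)⟩
  obtain ⟨ι, _, x, i₀, i₁, hA, hb, h₀, h1, h2⟩ := exists_reg _ hp hpm hpu
  obtain ⟨X, hX, L, c, hL, lo, up⟩ := exists_lang x i₀ i₁ hA hb h₀
  refine ⟨X, hX, L, hL, ⟨superpoly' h2 lo, ?_⟩, ?_⟩
  · refine GrowthAux.subexp (D := fun j => j / 2) (c := c) (fun t => Nat.div_le_self t 2)
      (fun K => ⟨2 * K, fun t ht => by omega⟩) fun t n hn => (up t n hn).trans ?_
    refine Nat.add_le_add_left (Nat.mul_le_mul_left _ (Nat.pow_le_pow_right two_pos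
      (Finset.sum_le_sum fun j _ => ?_))) _
    exact ((h1 j).trans (min_le_right _ _)).trans Nat.lt_two_pow_self.le
  · obtain ⟨n₀, hn₀⟩ := hu 8
    filter_upwards [eventually_ge_atTop 2, eventually_ge_atTop (2 * c), eventually_ge_atTop n₀]
      with n e1 e2 e3
    have e4 := GrowthAux.clog_two e1
    have e5 := up _ n (Nat.le_pow_clog one_lt_two n)
    generalize Nat.clog 2 n = t at e4 e5
    have e6 : t ≤ n := by
      rcases t with _ | t
      · exact Nat.zero_le _
      · have : t < 2 ^ t := Nat.lt_two_pow_self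
        rw [pow_succ] at e4
        omega
    refine e5.trans (final_le (q := h n / 4) e1 e2 e4 (hn₀.trans (hm e3)) (by omega) ?_)
    have e7 := Finset.sum_le_card_nsmul (Finset.range t) (fun j => x j i₁) (h n / 4) fun j hj =>
      ((h1 j).trans (min_le_left _ _)).trans (Nat.div_le_div_right
        ((hqh j).trans (hm ((Finset.mem_range.1 hj).le.trans e6))))
    simpa using e7

end Pool.Agent.FS.SlowIndex
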